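import Mathlib
import Pool.Agent.R924.E11

set_option autoImplicit false

/-!
Over every field there is a proper surface whose category of perfect complexes is the thick closure
of two simple-like objects.

The surface is the first Hirzebruch surface, and the objects are line bundles.
`isPerfect X` is the class of all objects of the (unbounded) derived category of all modules over
the structure sheaf of `X` which are locally isomorphic to bounded complexes of finite locally free
modules, and `triangEnvelope` is the thick closure (Mathlib). `IsSimpleLike π F` says that there are
no non-zero morphisms from `F` to its negative shifts and that the endomorphisms of `F` form a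
one-dimensional vector space over the base field, which acts through `π`.
-/

universe u

open CategoryTheory CategoryTheory.Limits AlgebraicGeometry

namespace Pool.Agent.Results.MP_e1e71f_ag.TwoSimpleLikeGenerate

open Pool.Agent.W456 Pool.Agent.R924

attribute [local instance] HasDerivedCategory.standard

theorem result (k : Type u) [Field k] :
    ∃ (X : Scheme.{u}) (π : X ⟶ Spec (CommRingCat.of k)) (F : Fin 2 → DerivedCategory X.Modules),
      IsProper π ∧ topologicalKrullDim X = 2 ∧ (∀ i, isPerfect X (F i)) ∧
      (∀ i, IsSimpleLike π (F i)) ∧
      (ObjectProperty.ofObj F).triangEnvelope = isPerfect X :=
  ⟨F₁ k, pi₁ k, fun i => (DerivedCategory.singleFunctor (F₁ k).Modules 0).obj (L12 k i),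
    inferInstance, dim₁ k, isPerfect_L12 k, simpleLike_L12 k, envelope_L12 k⟩

end Pool.Agent.Results.MP_e1e71f_ag.TwoSimpleLikeGenerate
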